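import Mathlib

set_option autoImplicit false

namespace Pool.Agent.Results.MP_4aa424_co.FirstFitChordal

/-- `G` is chordal: every cycle `f 0, f 1, ..., f (n - 1)` of length `n ≥ 4` (indices modulo `n`)
has a chord, that is an edge joining two non-consecutive vertices of the cycle. -/
def IsChordal {V : Type} (G : SimpleGraph V) : Prop :=
  ∀ n : ℕ, 4 ≤ n → ∀ f : ZMod n → V, Function.Injective f → (∀ i, G.Adj (f i) (f (i + 1))) →
    ∃ i j : ZMod n, i ≠ j ∧ j ≠ i + 1 ∧ i ≠ j + 1 ∧ G.Adj (f i) (f j)

/-- `c` is the First-Fit colouring of the graph `G` on `n` vertices for the ordering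
`σ 0, σ 1, ..., σ (n - 1)` of the vertices: `c (σ s)` is the least positive integer which is not
the colour of a neighbour `σ r` of `σ s` with `r < s`. -/
def IsFirstFit {n : ℕ} (G : SimpleGraph (Fin n)) (σ : Equiv.Perm (Fin n)) (c : Fin n → ℕ) : Prop :=
  ∀ s : Fin n, IsLeast {q : ℕ | 1 ≤ q ∧ ∀ r < s, G.Adj (σ r) (σ s) → c (σ r) ≠ q} (c (σ s))

/-- The First-Fit chromatic number: the largest number of colours First-Fit uses on `G`, over all
orderings of the vertices. -/
noncomputable def chiFF {n : ℕ} (G : SimpleGraph (Fin n)) : ℕ :=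
  sSup {t : ℕ | ∃ (σ : Equiv.Perm (Fin n)) (c : Fin n → ℕ), IsFirstFit G σ c ∧
    t = (Set.range c).ncard}

/-! A wall gives a First-Fit colouring. -/

theorem le_chiFF {n : ℕ} (G : SimpleGraph (Fin n)) (L : Fin n → ℕ) (T : ℕ)
    (h1 : ∀ v, 1 ≤ L v) (h2 : ∀ u v, G.Adj u v → L u ≠ L v)
    (h3 : ∀ v q, 1 ≤ q → q < L v → ∃ u, G.Adj u v ∧ L u = q)
    (h4 : ∃ v, L v = T) : T ≤ chiFF G := by
  obtain ⟨v, rfl⟩ := h4
  have hff : IsFirstFit G (Tuple.sort L) L := by
    intro s
    refine ⟨⟨h1 _, fun r _ hr => h2 _ _ hr⟩, ?_⟩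
    rintro q ⟨hq1, hq2⟩
    by_contra hlt
    push Not at hlt
    obtain ⟨u, hu, rfl⟩ := h3 _ q hq1 hlt
    have hr : (Tuple.sort L) ((Tuple.sort L).symm u) = u := Equiv.apply_symm_apply _ _
    have hlt' : (Tuple.sort L).symm u < s := by
      by_contra hcon
      push Not at hcon
      have h5 := Tuple.monotone_sort L hcon
      simp only [Function.comp_apply, hr] at h5
      omega
    exact hq2 _ hlt' (by rw [hr]; exact hu) (by rw [hr])
  have hle : L v ≤ (Set.range L).ncard := by
    have hsub : (↑(Finset.Icc 1 (L v)) : Set ℕ) ⊆ Set.range L := by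
      intro q hq
      rw [Finset.coe_Icc, Set.mem_Icc] at hq
      rcases Nat.lt_or_ge q (L v) with h | h
      · obtain ⟨u, -, hu⟩ := h3 v q hq.1 h
        exact ⟨u, hu⟩
      · exact ⟨v, by omega⟩
    have h5 := Set.ncard_le_ncard hsub (Set.finite_range L)
    rw [Set.ncard_coe_finset, Nat.card_Icc] at h5
    omega
  refine hle.trans (le_csSup ⟨n, ?_⟩ ⟨_, _, hff, rfl⟩)
  rintro t ⟨σ, c, -, rfl⟩
  have h5 := Set.ncard_image_le (f := c) (Set.finite_univ (α := Fin n))
  rw [Set.image_univ, Set.ncard_univ, Nat.card_fin] at h5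
  exact h5

/-! A rank function whose lower neighbourhoods are small cliques. -/

theorem chordal_of_rank {V : Type} (G : SimpleGraph V) (r : V → ℕ)
    (h1 : ∀ u v, G.Adj u v → r u ≠ r v)
    (h2 : ∀ w u v, G.Adj w u → G.Adj w v → r u < r w → r v < r w → u ≠ v → G.Adj u v) :
    IsChordal G := by
  intro n hn f hf hadj
  have : NeZero n := ⟨by omega⟩
  obtain ⟨i, -, hi⟩ := Finset.exists_max_image (Finset.univ : Finset (ZMod n)) (fun i => r (f i))
    ⟨0, Finset.mem_univ _⟩
  have e0 : i - 1 + 1 = i := by ring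
  have hsmall : ∀ q : ℕ, 0 < q → q < n → (q : ZMod n) ≠ 0 := by
    intro q hq hqn h
    rw [ZMod.natCast_eq_zero_iff] at h
    have := Nat.le_of_dvd hq h
    omega
  have hne : i - 1 ≠ i + 1 := by
    intro h
    apply hsmall 2 (by norm_num) (by omega)
    have : (2 : ZMod n) = (i + 1) - (i - 1) := by ring
    push_cast
    rw [this, ← h, sub_self]
  have ha : G.Adj (f i) (f (i - 1)) := by
    have := hadj (i - 1)
    rw [e0] at this
    exact this.symm
  have hb : G.Adj (f i) (f (i + 1)) := hadj i
  have hra : r (f (i - 1)) < r (f i) :=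
    lt_of_le_of_ne (hi _ (Finset.mem_univ _)) (h1 _ _ ha).symm
  have hrb : r (f (i + 1)) < r (f i) :=
    lt_of_le_of_ne (hi _ (Finset.mem_univ _)) (h1 _ _ hb).symm
  refine ⟨i - 1, i + 1, hne, ?_, ?_, h2 _ _ _ ha hb hra hrb (fun h => hne (hf h))⟩
  · rw [e0]
    intro h
    apply hsmall 1 (by norm_num) (by omega)
    have : (1 : ZMod n) = (i + 1) - i := by ring
    push_cast
    rw [this, h, sub_self]
  · intro h
    apply hsmall 3 (by norm_num) (by omega)
    have : (3 : ZMod n) = (i + 1 + 1) - (i - 1) := by ring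
    push_cast
    rw [this, ← h, sub_self]

theorem cliqueNum_of_rank {n k : ℕ} (G : SimpleGraph (Fin n)) (r : Fin n → ℕ)
    (h1 : ∀ u v, G.Adj u v → r u ≠ r v)
    (h3 : ∀ w, ∃ s : Finset (Fin n), s.card + 1 ≤ k ∧ ∀ u, G.Adj w u → r u < r w → u ∈ s)
    (h4 : ∃ s : Finset (Fin n), G.IsNClique k s) : G.cliqueNum = k := by
  classical
  apply le_antisymm
  · obtain ⟨s, hs⟩ := G.exists_isNClique_cliqueNum
    rcases s.eq_empty_or_nonempty with rfl | hne
    · have := hs.card_eq
      rw [Finset.card_empty] at this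
      omega
    obtain ⟨w, hw, hmax⟩ := Finset.exists_max_image s r hne
    obtain ⟨t, ht, hsub⟩ := h3 w
    have hle : s ⊆ insert w t := by
      intro u hu
      by_cases huw : u = w
      · rw [huw]
        exact Finset.mem_insert_self _ _
      · have hadj : G.Adj w u := hs.isClique hw hu (Ne.symm huw)
        exact Finset.mem_insert_of_mem (hsub u hadj
          (lt_of_le_of_ne (hmax u hu) (h1 _ _ hadj).symm))
    have h5 := Finset.card_le_card hle
    have h6 := Finset.card_insert_le w t
    rw [hs.card_eq] at h5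
    omega
  · obtain ⟨s, hs⟩ := h4
    have := hs.isClique.card_le_cliqueNum
    rw [hs.card_eq] at this
    exact this

/-! The graph: a binomial tree whose vertices are blown up to cliques with `s` elements, a clique
with `k` elements, and `p` isolated vertices.  The vertices of the binomial tree are the sets of
elements of `Fin m`; the children of a set are obtained by inserting an element smaller than all its
elements. -/

/-- `T` is a child of `S`. -/
def Par {m : ℕ} (S T : Finset (Fin m)) : Prop := ∃ j : Fin m, (∀ i ∈ S, j < i) ∧ T = insert j S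

theorem Par.card {m : ℕ} {S T : Finset (Fin m)} (h : Par S T) : T.card = S.card + 1 := by
  obtain ⟨j, hj, rfl⟩ := h
  exact Finset.card_insert_of_notMem (fun h => lt_irrefl _ (hj j h))

theorem Par.unique {m : ℕ} {S S' T : Finset (Fin m)} (h : Par S T) (h' : Par S' T) : S = S' := by
  obtain ⟨j, hj, rfl⟩ := h
  obtain ⟨j', hj', hh⟩ := h'
  have e : j = j' := by
    by_contra hne
    have h1 : j ∈ insert j' S' := hh ▸ Finset.mem_insert_self _ _
    have h2 : j' ∈ insert j S := hh ▸ Finset.mem_insert_self _ _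
    have h3 := hj' j (Finset.mem_of_mem_insert_of_ne h1 hne)
    have h4 := hj j' (Finset.mem_of_mem_insert_of_ne h2 (Ne.symm hne))
    exact absurd h3 (not_lt.2 h4.le)
  subst e
  have h1 : j ∉ S := fun h => lt_irrefl _ (hj j h)
  have h2 : j ∉ S' := fun h => lt_irrefl _ (hj' j h)
  have h3 := congrArg (fun X => X.erase j) hh
  simpa [Finset.erase_insert h1, Finset.erase_insert h2] using h3

abbrev W (m s k p : ℕ) : Type := (Finset (Fin m) × Fin s) ⊕ (Fin k ⊕ Fin p)

/-- Adjacency. -/
def Rel {m s k p : ℕ} : W m s k p → W m s k p → Prop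
  | Sum.inl x, Sum.inl y => (x.1 = y.1 ∧ x.2 ≠ y.2) ∨ Par x.1 y.1 ∨ Par y.1 x.1
  | Sum.inr (Sum.inl a), Sum.inr (Sum.inl b) => a ≠ b
  | _, _ => False

def gr (m s k p : ℕ) : SimpleGraph (W m s k p) where
  Adj := Rel
  symm := ⟨by
    rintro (x | a | a) (y | b | b) h <;> simp only [Rel] at h ⊢
    · rcases h with ⟨h1, h2⟩ | h | h
      · exact Or.inl ⟨h1.symm, h2.symm⟩
      · exact Or.inr (Or.inr h)
      · exact Or.inr (Or.inl h)
    · exact Ne.symm h⟩
  loopless := ⟨by
    rintro (x | a | a) h <;> simp only [Rel] at h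
    · rcases h with ⟨h1, h2⟩ | h | h
      · exact h2 rfl
      · have := h.card
        omega
      · have := h.card
        omega
    · exact h rfl⟩

/-- The rank function. -/
def rk {m s k p : ℕ} : W m s k p → ℕ
  | Sum.inl x => x.1.card * s + x.2
  | Sum.inr (Sum.inl a) => a
  | Sum.inr (Sum.inr _) => 0

/-- The number of elements smaller than all elements of `S`. -/
def lev {m : ℕ} (S : Finset (Fin m)) : ℕ := (Finset.univ.filter (fun j => ∀ i ∈ S, j < i)).card

theorem lev_empty {m : ℕ} : lev (∅ : Finset (Fin m)) = m := by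
  simp [lev]

theorem lev_insert {m : ℕ} (S : Finset (Fin m)) (j : Fin m) (hj : ∀ i ∈ S, j < i) :
    lev (insert j S) = j := by
  have : Finset.univ.filter (fun l => ∀ i ∈ insert j S, l < i) = Finset.Iio j := by
    ext l
    simp only [Finset.mem_filter, Finset.mem_univ, true_and, Finset.mem_insert, Finset.mem_Iio]
    constructor
    · intro h
      exact h j (Or.inl rfl)
    · rintro h i (rfl | hi)
      · exact h
      · exact h.trans (hj i hi)
  rw [lev, this, Fin.card_Iio]

theorem lt_lev_iff {m : ℕ} (S : Finset (Fin m)) (a : ℕ) :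
    a < lev S ↔ ∃ h : a < m, ∀ i ∈ S, (⟨a, h⟩ : Fin m) < i := by
  rcases S.eq_empty_or_nonempty with rfl | hne
  · rw [lev_empty]
    simp
  · have hS : S = insert (S.min' hne) (S.erase (S.min' hne)) := by
      rw [Finset.insert_erase (S.min'_mem hne)]
    have hlev : lev S = (S.min' hne : Fin m) := by
      conv_lhs => rw [hS]
      apply lev_insert
      intro i hi
      exact Finset.min'_lt_of_mem_erase_min' _ hne hi
    rw [hlev]
    constructor
    · intro h
      refine ⟨h.trans (Fin.is_lt _), fun i hi => ?_⟩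
      exact lt_of_lt_of_le (Fin.lt_def.2 h) (S.min'_le i hi)
    · rintro ⟨h, hh⟩
      exact Fin.lt_def.1 (hh _ (S.min'_mem hne))

theorem Par.lev_lt {m : ℕ} {S T : Finset (Fin m)} (h : Par S T) : lev T < lev S := by
  obtain ⟨j, hj, rfl⟩ := h
  rw [lev_insert S j hj, lt_lev_iff]
  exact ⟨j.is_lt, hj⟩

/-- The wall. -/
def level {m s k p : ℕ} : W m s k p → ℕ
  | Sum.inl x => lev x.1 * s + x.2 + 1
  | Sum.inr (Sum.inl a) => a + 1
  | Sum.inr (Sum.inr _) => 1

theorem block_lt {a b s i j : ℕ} (hab : a < b) (hi : i < s) : a * s + i < b * s + j := by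
  have h1 : (a + 1) * s ≤ b * s := Nat.mul_le_mul_right s hab
  rw [Nat.add_mul, one_mul] at h1
  omega

theorem rk_ne {m s k p : ℕ} (u v : W m s k p) (h : (gr m s k p).Adj u v) : rk u ≠ rk v := by
  change Rel u v at h
  rcases u with x | a | a <;> rcases v with y | b | b <;> simp only [Rel] at h <;>
    simp only [rk]
  · rcases h with ⟨h1, h2⟩ | h | h
    · rw [h1]
      intro h3
      exact h2 (Fin.ext (by omega))
    · rw [h.card]
      exact (block_lt (Nat.lt_add_one _) x.2.is_lt).ne
    · rw [h.card]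
      exact (block_lt (Nat.lt_add_one _) y.2.is_lt).ne'
  · intro h3
    exact h (Fin.ext h3)

theorem level_ne {m s k p : ℕ} (u v : W m s k p) (h : (gr m s k p).Adj u v) :
    level u ≠ level v := by
  change Rel u v at h
  rcases u with x | a | a <;> rcases v with y | b | b <;> simp only [Rel] at h <;>
    simp only [level]
  · rcases h with ⟨h1, h2⟩ | h | h
    · rw [h1]
      intro h3
      exact h2 (Fin.ext (by omega))
    · have := block_lt (s := s) (i := y.2) (j := x.2) h.lev_lt y.2.is_lt
      omega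
    · have := block_lt (s := s) (i := x.2) (j := y.2) h.lev_lt x.2.is_lt
      omega
  · intro h3
    exact h (Fin.ext (by omega))

theorem one_le_level {m s k p : ℕ} (u : W m s k p) : 1 ≤ level u := by
  rcases u with x | a | a <;> simp [level]

theorem wall {m s k p : ℕ} (v : W m s k p) (q : ℕ) (h1 : 1 ≤ q) (h2 : q < level v) :
    ∃ u, (gr m s k p).Adj u v ∧ level u = q := by
  change ∃ u, Rel u v ∧ level u = q
  rcases v with y | b | b <;> simp only [level] at h2
  · have hs : 0 < s := lt_of_le_of_lt (Nat.zero_le _) y.2.is_lt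
    have hdm := Nat.div_add_mod (q - 1) s
    have hmod := Nat.mod_lt (q - 1) hs
    set a := (q - 1) / s with ha
    set b := (q - 1) % s with hb
    have hdm' : a * s + b + 1 = q := by
      rw [mul_comm]
      omega
    rcases lt_trichotomy a (lev y.1) with h | h | h
    · obtain ⟨h3, h4⟩ := (lt_lev_iff _ _).1 h
      refine ⟨Sum.inl (insert ⟨a, h3⟩ y.1, ⟨b, hmod⟩), Or.inr (Or.inr ⟨⟨a, h3⟩, h4, rfl⟩), ?_⟩
      simp only [level]
      rw [lev_insert _ _ h4]
      exact hdm'
    · refine ⟨Sum.inl (y.1, ⟨b, hmod⟩), Or.inl ⟨rfl, ?_⟩, ?_⟩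
      · intro h3
        have h4 : b = y.2 := congrArg Fin.val h3
        rw [← h] at h2
        omega
      · simp only [level]
        rw [← h]
        exact hdm'
    · have := block_lt (s := s) (i := y.2) (j := b) h y.2.is_lt
      omega
  · refine ⟨Sum.inr (Sum.inl ⟨q - 1, by have := b.is_lt; omega⟩), ?_, ?_⟩
    · simp only [Rel]
      intro h3
      have h4 : q - 1 = b := congrArg Fin.val h3
      omega
    · simp only [level]
      omega
  · omega

theorem lower {m s k p : ℕ} (w u v : W m s k p) (hu : (gr m s k p).Adj w u)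
    (hv : (gr m s k p).Adj w v) (hru : rk u < rk w) (hrv : rk v < rk w) (huv : u ≠ v) :
    (gr m s k p).Adj u v := by
  change Rel w u at hu
  change Rel w v at hv
  change Rel u v
  rcases w with z | c | c
  · rcases u with x | a | a <;> simp only [Rel] at hu
    rcases v with y | b | b <;> simp only [Rel] at hv
    simp only [Rel]
    simp only [rk] at hru hrv
    have key : ∀ t : Finset (Fin m) × Fin s, (z.1 = t.1 ∧ z.2 ≠ t.2) ∨ Par z.1 t.1 ∨ Par t.1 z.1 →
        t.1.card * s + t.2 < z.1.card * s + z.2 → z.1 = t.1 ∨ Par t.1 z.1 := by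
      rintro t (h | h | h) ht
      · exact Or.inl h.1
      · rw [h.card] at ht
        have := block_lt (s := s) (i := z.2) (j := t.2) (Nat.lt_add_one z.1.card) z.2.is_lt
        omega
      · exact Or.inr h
    rcases key x hu hru with h1 | h1 <;> rcases key y hv hrv with h2 | h2
    · refine Or.inl ⟨h1.symm.trans h2, fun h3 => huv ?_⟩
      exact congrArg Sum.inl (Prod.ext (h1.symm.trans h2) h3)
    · right
      right
      rw [← h1]
      exact h2
    · right
      left
      rw [← h2]
      exact h1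
    · refine Or.inl ⟨h1.unique h2, fun h3 => huv ?_⟩
      exact congrArg Sum.inl (Prod.ext (h1.unique h2) h3)
  · rcases u with x | a | a <;> simp only [Rel] at hu
    rcases v with y | b | b <;> simp only [Rel] at hv
    simp only [Rel]
    rintro rfl
    exact huv rfl
  · rcases u with x | a | a <;> simp only [Rel] at hu

theorem lower_card {m s k p : ℕ} (hk : 1 ≤ k) (hsk : 2 * s ≤ k) (w : W m s k p) :
    ∃ t : Finset (W m s k p), t.card + 1 ≤ k ∧
      ∀ u, (gr m s k p).Adj w u → rk u < rk w → u ∈ t := by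
  classical
  rcases w with z | c | c
  · by_cases hp : ∃ S, Par S z.1
    · obtain ⟨S, hS⟩ := hp
      refine ⟨((Finset.univ.erase z.2).image (fun i => Sum.inl (z.1, i))) ∪
        (Finset.univ.image (fun i : Fin s => Sum.inl (S, i))), ?_, ?_⟩
      · have h1 := Finset.card_union_le
          ((Finset.univ.erase z.2).image (fun i => (Sum.inl (z.1, i) : W m s k p)))
          (Finset.univ.image (fun i : Fin s => (Sum.inl (S, i) : W m s k p)))
        have h2 := Finset.card_image_le (s := Finset.univ.erase z.2)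
          (f := fun i => (Sum.inl (z.1, i) : W m s k p))
        have h3 := Finset.card_image_le (s := (Finset.univ : Finset (Fin s)))
          (f := fun i => (Sum.inl (S, i) : W m s k p))
        rw [Finset.card_erase_of_mem (Finset.mem_univ _), Finset.card_univ, Fintype.card_fin] at h2
        rw [Finset.card_univ, Fintype.card_fin] at h3
        have := z.2.is_lt
        omega
      · intro u hu hru
        change Rel _ u at hu
        rcases u with x | a | a <;> simp only [Rel] at hu
        simp only [rk] at hru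
        rw [Finset.mem_union, Finset.mem_image, Finset.mem_image]
        rcases hu with h | h | h
        · left
          refine ⟨x.2, Finset.mem_erase.2 ⟨Ne.symm h.2, Finset.mem_univ _⟩, ?_⟩
          rw [h.1]
        · rw [h.card] at hru
          have := block_lt (s := s) (i := z.2) (j := x.2) (Nat.lt_add_one z.1.card) z.2.is_lt
          omega
        · right
          refine ⟨x.2, Finset.mem_univ _, ?_⟩
          rw [hS.unique h]
    · refine ⟨(Finset.univ.erase z.2).image (fun i => Sum.inl (z.1, i)), ?_, ?_⟩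
      · have h2 := Finset.card_image_le (s := Finset.univ.erase z.2)
          (f := fun i => (Sum.inl (z.1, i) : W m s k p))
        rw [Finset.card_erase_of_mem (Finset.mem_univ _), Finset.card_univ, Fintype.card_fin] at h2
        have := z.2.is_lt
        omega
      · intro u hu hru
        change Rel _ u at hu
        rcases u with x | a | a <;> simp only [Rel] at hu
        simp only [rk] at hru
        rw [Finset.mem_image]
        rcases hu with h | h | h
        · refine ⟨x.2, Finset.mem_erase.2 ⟨Ne.symm h.2, Finset.mem_univ _⟩, ?_⟩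
          rw [h.1]
        · rw [h.card] at hru
          have := block_lt (s := s) (i := z.2) (j := x.2) (Nat.lt_add_one z.1.card) z.2.is_lt
          omega
        · exact absurd ⟨_, h⟩ hp
  · refine ⟨(Finset.univ.erase c).image (fun i => Sum.inr (Sum.inl i)), ?_, ?_⟩
    · have h2 := Finset.card_image_le (s := Finset.univ.erase c)
        (f := fun i => (Sum.inr (Sum.inl i) : W m s k p))
      rw [Finset.card_erase_of_mem (Finset.mem_univ _), Finset.card_univ, Fintype.card_fin] at h2
      have := c.is_lt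
      omega
    · intro u hu hru
      change Rel _ u at hu
      rcases u with x | a | a <;> simp only [Rel] at hu
      rw [Finset.mem_image]
      exact ⟨a, Finset.mem_erase.2 ⟨Ne.symm hu, Finset.mem_univ _⟩, rfl⟩
  · refine ⟨∅, by simpa using hk, ?_⟩
    intro u hu
    have hu' : Rel (Sum.inr (Sum.inr c)) u := hu
    rcases u with x | a | a <;> simp only [Rel] at hu'

theorem card_W (m s k p : ℕ) : Fintype.card (W m s k p) = 2 ^ m * s + (k + p) := by
  simp [W]

/-- The construction: `2 ^ m * s + k + p` vertices, clique number `k`, and First-Fit uses at least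
`(m + 1) * s` colours. -/
theorem construction (m s k p n : ℕ) (hs : 1 ≤ s) (hsk : 2 * s ≤ k)
    (hn : 2 ^ m * s + (k + p) = n) :
    ∃ G : SimpleGraph (Fin n), IsChordal G ∧ G.cliqueNum = k ∧ (m + 1) * s ≤ chiFF G := by
  classical
  have e : Fin n ≃ W m s k p := (Fintype.equivFinOfCardEq (by rw [card_W, hn])).symm
  have hcomap : ∀ a b, ((gr m s k p).comap e).Adj a b ↔ (gr m s k p).Adj (e a) (e b) :=
    fun a b => Iff.rfl
  refine ⟨(gr m s k p).comap e, ?_, ?_, ?_⟩
  · apply chordal_of_rank _ (fun a => rk (e a))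
    · intro u v h
      exact rk_ne _ _ h
    · intro w u v hu hv h1 h2 huv
      exact lower _ _ _ hu hv h1 h2 (fun h => huv (e.injective h))
  · apply cliqueNum_of_rank _ (fun a => rk (e a))
    · intro u v h
      exact rk_ne _ _ h
    · intro w
      obtain ⟨t, ht, hsub⟩ := lower_card (by omega) hsk (e w)
      refine ⟨t.image e.symm, ?_, ?_⟩
      · have := Finset.card_image_le (s := t) (f := e.symm)
        omega
      · intro u hu hru
        rw [Finset.mem_image]
        exact ⟨e u, hsub _ hu hru, e.symm_apply_apply u⟩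
    · refine ⟨Finset.univ.image (fun a : Fin k => e.symm (Sum.inr (Sum.inl a))), ?_, ?_⟩
      · intro x hx y hy hxy
        rw [Finset.coe_image, Set.mem_image] at hx hy
        obtain ⟨a, -, rfl⟩ := hx
        obtain ⟨b, -, rfl⟩ := hy
        rw [hcomap, Equiv.apply_symm_apply, Equiv.apply_symm_apply]
        change a ≠ b
        rintro rfl
        exact hxy rfl
      · rw [Finset.card_image_of_injective, Finset.card_univ, Fintype.card_fin]
        intro a b h
        have := e.symm.injective h
        simpa using this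
  · apply le_chiFF _ (fun a => level (e a))
    · intro v
      exact one_le_level _
    · intro u v h
      exact level_ne _ _ h
    · intro v q h1 h2
      obtain ⟨u, hu, hq⟩ := wall (e v) q h1 h2
      refine ⟨e.symm u, ?_, ?_⟩
      · rw [hcomap, Equiv.apply_symm_apply]
        exact hu
      · simp only [Equiv.apply_symm_apply]
        exact hq
    · refine ⟨e.symm (Sum.inl (∅, ⟨s - 1, by omega⟩)), ?_⟩
      simp only [Equiv.apply_symm_apply, level, lev_empty]
      rw [Nat.add_mul, one_mul]
      omega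

/-- **First-Fit on chordal graphs.** For all integers `k ≥ 2` and `n ≥ k ^ 2` there is a chordal
graph with `n` vertices and clique number exactly `k` on which First-Fit uses, for some ordering of
the vertices, at least `(k / 6) * log₂ n` colours. -/
theorem result (k n : ℕ) (hk : 2 ≤ k) (hn : k ^ 2 ≤ n) :
    ∃ G : SimpleGraph (Fin n), IsChordal G ∧ G.cliqueNum = k ∧
      (1 / 6 : ℝ) * k * Real.logb 2 n ≤ chiFF G := by
  obtain ⟨s, hs⟩ : ∃ s, s = k / 2 := ⟨_, rfl⟩
  have hs1 : 1 ≤ s := by omega
  have hsk : 2 * s ≤ k := by omega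
  have hsk3 : k ≤ 3 * s := by omega
  have hkk : 2 * k ≤ k ^ 2 := by
    rw [pow_two]
    exact Nat.mul_le_mul_right k hk
  obtain ⟨m, hm⟩ : ∃ m, m = Nat.log 2 ((n - k) / s) := ⟨_, rfl⟩
  have hpos : (n - k) / s ≠ 0 := by
    rw [Nat.div_ne_zero_iff]
    omega
  have hm1 : 2 ^ m ≤ (n - k) / s := by
    rw [hm]
    exact Nat.pow_log_le_self 2 hpos
  have hm2 : (n - k) / s < 2 ^ (m + 1) := by
    rw [hm]
    exact Nat.lt_pow_succ_log_self (by norm_num) _
  have hm3 : 2 ^ m * s ≤ n - k := (Nat.mul_le_mul_right s hm1).trans (Nat.div_mul_le_self _ _)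
  have hm4 : n - k < 2 ^ (m + 1) * s := (Nat.div_lt_iff_lt_mul hs1).1 hm2
  obtain ⟨G, h1, h2, h3⟩ := construction m s k (n - k - 2 ^ m * s) n hs1 hsk (by omega)
  refine ⟨G, h1, h2, ?_⟩
  -- `n < (2 ^ (m + 1)) ^ 2`
  obtain ⟨X, hX⟩ : ∃ X, X = 2 ^ (m + 1) := ⟨_, rfl⟩
  have hX2 : 2 ≤ X := by
    rw [hX, pow_succ]
    have : 1 ≤ 2 ^ m := Nat.one_le_two_pow
    omega
  rw [← hX] at hm4
  have h4 : 2 * n < (X + 2) * k := by
    have h5 : X * (2 * s) ≤ X * k := Nat.mul_le_mul_left X hsk
    have h6 : X * (2 * s) = 2 * (X * s) := by ring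
    have h7 : (X + 2) * k = X * k + 2 * k := by ring
    omega
  have h5 : n < X ^ 2 := by
    by_contra hcon
    push Not at hcon
    have h6 : (2 * n) ^ 2 < ((X + 2) * k) ^ 2 := Nat.pow_lt_pow_left h4 (by norm_num)
    have h7 : ((X + 2) * k) ^ 2 ≤ (2 * X) ^ 2 * n := by
      rw [mul_pow]
      exact Nat.mul_le_mul (Nat.pow_le_pow_left (by omega) 2) hn
    have h8 : (2 * X) ^ 2 * n ≤ (2 * n) ^ 2 := by
      have : (2 * X) ^ 2 * n = 4 * (X ^ 2 * n) := by ring
      rw [this]
      have : (2 * n) ^ 2 = 4 * (n * n) := by ring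
      rw [this]
      exact Nat.mul_le_mul_left 4 (Nat.mul_le_mul_right n hcon)
    omega
  have hn1 : 0 < n := by omega
  have h6 : Real.logb 2 n ≤ 2 * (m + 1) := by
    have h7 : (n : ℝ) ≤ (2 : ℝ) ^ (2 * (m + 1) : ℕ) := by
      have h8 : X ^ 2 = 2 ^ (2 * (m + 1)) := by rw [hX, ← pow_mul]; ring_nf
      rw [h8] at h5
      exact_mod_cast h5.le
    have h9 := Real.logb_le_logb_of_le (b := 2) (by norm_num) (by exact_mod_cast hn1) h7
    rw [Real.logb_pow, Real.logb_self_eq_one (by norm_num), mul_one] at h9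
    push_cast at h9
    exact h9
  have h7 : ((m + 1 : ℕ) : ℝ) * (s : ℝ) ≤ chiFF G := by exact_mod_cast h3
  have h8 : (k : ℝ) ≤ 3 * s := by exact_mod_cast hsk3
  have h9 : (0 : ℝ) ≤ Real.logb 2 n := Real.logb_nonneg (by norm_num) (by exact_mod_cast hn1)
  calc (1 / 6 : ℝ) * k * Real.logb 2 n ≤ (1 / 6 : ℝ) * (3 * s) * (2 * (m + 1)) := by
        apply mul_le_mul _ h6 h9 (by positivity)
        linarith
    _ = ((m + 1 : ℕ) : ℝ) * (s : ℝ) := by push_cast; ring
    _ ≤ chiFF G := h7

end Pool.Agent.Results.MP_4aa424_co.FirstFitChordal
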